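import Pool.Agent.Sorted94.Asymp
import Pool.Agent.Sorted22.Uniq

/-! Asymptotics of the number of sorted permutations. -/

namespace Pool.Agent.Results.MP_92d45d_co.Asymptotics

open Filter Topology Pool.Agent.Sorted94

/-- `α` is continuous on `[0,c)`, solves there the integral equation
`exp(x - α(x)) = 1 - ∫_0^x exp(y - α(y)) k(α(y), x - y) dy` with the entire kernel
`k(s,t) = ∑_m s^(m+1) t^m / ((m+1)! m!)`, and tends to infinity at `c`. -/
def IsSolution (c : ℝ) (α : ℝ → ℝ) : Prop :=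
  0 < c ∧ ContinuousOn α (Set.Ico 0 c) ∧
    (∀ x ∈ Set.Ico 0 c, Real.exp (x - α x) =
      1 - ∫ y in (0:ℝ)..x, Real.exp (y - α y) *
        ∑' m : ℕ, α y ^ (m + 1) * (x - y) ^ m / ((m + 1).factorial * m.factorial)) ∧
    Tendsto α (𝓝[<] c) atTop

theorem al_eq (n : ℕ) : ((a n : ℝ) / (n.factorial : ℝ)) = V 0 n := by
  rw [a_eq_cnt]; rfl

theorem xx_eq (n : ℕ) : (a n : ℝ) / ((n.factorial : ℝ) * (1 / Rad) ^ (n + 1)) = xx n := by
  have hR := Rad_pos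
  rw [xx, ← al_eq]
  have h1 : (0 : ℝ) < (n.factorial : ℝ) := by positivity
  rw [one_div, inv_pow]
  field_simp

theorem root_lim : Tendsto (fun n : ℕ => ((a n : ℝ) / (n.factorial : ℝ)) ^ (1 / (n : ℝ))) atTop
    (𝓝 (1 / Rad)) := by
  have hR := Rad_pos
  have h0 : Tendsto (fun n : ℕ => 1 / (n : ℝ)) atTop (𝓝 0) := tendsto_one_div_atTop_nhds_zero_nat
  have h1 : Tendsto (fun n : ℕ => xx n ^ (1 / (n : ℝ))) atTop (𝓝 ((1 : ℝ) ^ (0 : ℝ))) :=
    tendsto_xx.rpow h0 (Or.inl one_ne_zero)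
  have h2 : Tendsto (fun n : ℕ => (1 / Rad) ^ (1 + 1 / (n : ℝ))) atTop
      (𝓝 ((1 / Rad) ^ (1 + 0 : ℝ))) :=
    (Real.continuous_const_rpow (by positivity : (1 / Rad) ≠ 0)).continuousAt.tendsto.comp
      (h0.const_add 1)
  have h3 := h1.mul h2
  rw [Real.one_rpow, add_zero, Real.rpow_one, one_mul] at h3
  refine h3.congr' ?_
  filter_upwards [eventually_gt_atTop 0] with n hn
  have hn' : (0 : ℝ) < n := by exact_mod_cast hn
  have e1 : (a n : ℝ) / (n.factorial : ℝ) = xx n * (1 / Rad) ^ (n + 1) := by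
    rw [al_eq, xx, one_div, inv_pow]
    field_simp
  rw [e1, Real.mul_rpow (xx_nonneg n) (by positivity), ← Real.rpow_natCast (1 / Rad) (n + 1),
    ← Real.rpow_mul (by positivity)]
  congr 2
  push_cast
  field_simp

theorem result :
    (∃ (c : ℝ) (α : ℝ → ℝ), IsSolution c α) ∧
    ∀ (c : ℝ) (α : ℝ → ℝ), IsSolution c α →
      (∀ x ∈ Set.Ico 0 c, HasSum (fun n : ℕ => (a n : ℝ) * x ^ (n + 1) / ((n + 1).factorial : ℝ)) (α x)) ∧
      0.6976 < 1 / c ∧ 1 / c < 0.698 ∧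
      Tendsto (fun n : ℕ => ((a n : ℝ) / (n.factorial : ℝ)) ^ (1 / (n : ℝ))) atTop (𝓝 (1 / c)) ∧
      Tendsto (fun n : ℕ => (a n : ℝ) / ((n.factorial : ℝ) * (1 / c) ^ (n + 1))) atTop (𝓝 1) ∧
      ∃ C : ℝ, ∀ n : ℕ, 1 ≤ n →
        |(a n : ℝ) / ((n.factorial : ℝ) * (1 / c) ^ (n + 1)) - 1| ≤ C * (n : ℝ) ^ (-(1 / 4) : ℝ) := by
  refine ⟨⟨Rad, Pool.Agent.Sorted22.th, Pool.Agent.Sorted22.isSol_Rad⟩, ?_⟩
  intro c α h
  have h' : Pool.Agent.Sorted22.IsSol c α := h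
  have hc : c = Rad := h'.eq_Rad
  have hth := h'.eq_th
  subst hc
  have hR := Rad_pos
  refine ⟨?_, ?_, ?_, root_lim, ?_, ?_⟩
  · intro x hx
    rw [hth x hx]
    obtain ⟨t, ht, hS⟩ := exists_Sm hx.2
    have h1 : Summable fun n => thc n * x ^ n := by
      refine ((hS.mono hx.1 ht.le).sth).congr (fun n => ?_)
      rw [abs_of_nonneg (thc_nonneg n)]
    have h2 : HasSum (fun n => thc n * x ^ n) (Pool.Agent.Sorted22.th x) := h1.hasSum
    have h3 := (hasSum_nat_add_iff' 1).mpr h2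
    simp only [Finset.sum_range_one, thc, zero_mul, sub_zero] at h3
    refine h3.congr_fun (fun n => ?_)
    rw [← al_eq, Nat.factorial_succ]
    push_cast
    field_simp
  · have h1 := Rad_le
    rw [lt_div_iff₀ hR]
    linarith
  · have h1 := Rad_ge
    rw [div_lt_iff₀ hR]
    linarith
  · simp only [xx_eq]
    exact tendsto_xx
  · obtain ⟨C, hC, hx⟩ := xx_rate
    refine ⟨2 * C + |xx 1 - 1|, ?_⟩
    intro n hn
    rw [xx_eq]
    have hn' : (1 : ℝ) ≤ n := by exact_mod_cast hn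
    have hp : 0 < (n : ℝ) ^ (-(1 / 4) : ℝ) := by positivity
    rcases Nat.lt_or_ge n 2 with h1 | h1
    · have : n = 1 := by omega
      subst this
      simp
      linarith
    · obtain ⟨m, rfl⟩ := Nat.exists_eq_add_of_le h1
      have h2 := hx m
      rw [add_comm 2 m]
      refine h2.trans ?_
      have h3 : ((m : ℝ) + 1) ^ (-(1 / 4) : ℝ) ≤ 2 * (((m + 2 : ℕ) : ℝ)) ^ (-(1 / 4) : ℝ) := by
        have h4 : (((m + 2 : ℕ) : ℝ)) ≤ 2 * ((m : ℝ) + 1) := by push_cast; linarith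
        have h5 : (0 : ℝ) < (m : ℝ) + 1 := by positivity
        have h6 : (2 * ((m : ℝ) + 1)) ^ (-(1 / 4) : ℝ) ≤ (((m + 2 : ℕ) : ℝ)) ^ (-(1 / 4) : ℝ) :=
          rpow_anti (by positivity) h4 (by norm_num)
        rw [Real.mul_rpow (by norm_num) h5.le] at h6
        have h7 : (1 / 2 : ℝ) ≤ 2 ^ (-(1 / 4) : ℝ) := by
          have : (2 : ℝ) ^ (-1 : ℝ) ≤ 2 ^ (-(1 / 4) : ℝ) :=
            Real.rpow_le_rpow_of_exponent_le (by norm_num) (by norm_num)
          rw [Real.rpow_neg_one] at this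
          linarith
        have h8 : 0 < ((m : ℝ) + 1) ^ (-(1 / 4) : ℝ) := Real.rpow_pos_of_pos h5 _
        nlinarith
      have h9 : 0 ≤ |xx 1 - 1| * (((m + 2 : ℕ) : ℝ)) ^ (-(1 / 4) : ℝ) := by positivity
      calc C * ((m : ℝ) + 1) ^ (-(1 / 4) : ℝ)
          ≤ C * (2 * (((m + 2 : ℕ) : ℝ)) ^ (-(1 / 4) : ℝ)) := mul_le_mul_of_nonneg_left h3 hC.le
        _ ≤ _ := by linarith

end Pool.Agent.Results.MP_92d45d_co.Asymptotics
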